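import Pool.Agent.Lib.MP_43d240_ag.H80.C1

set_option autoImplicit false

/-! # The invariant derivation of the function field of `y² = x³ - x` -/

namespace PiPar

open WeierstrassCurve WeierstrassCurve.Affine Polynomial

theorem eval₂_EF_polynomial (k : Type*) [Field k] {T : Type*} [CommRing T] (i : k[X] →+* T) (b : T) :
    (EF k).polynomial.eval₂ i b = b ^ 2 - (i X ^ 3 - i X) := by
  rw [EF_polynomial, eval₂_sub, eval₂_pow, eval₂_X, eval₂_C, map_sub, map_pow]

theorem x0_ne_zero (k : Type*) [Field k] : x0 k ≠ 0 := by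
  intro h
  apply transcendental_x0 k
  rw [h]
  exact isAlgebraic_zero

theorem y0_ne_zero (k : Type*) [Field k] : y0 k ≠ 0 := by
  intro h
  apply y0_notMem k
  rw [h]
  exact zero_mem _

/-- C3 : the invariant derivation -/
theorem exists_derivation (k : Type*) [Field k] [CharZero k] :
    ∃ D : Derivation k (FE k) (FE k), D (x0 k) = y0 k ∧
    D (y0 k) = (3 * (x0 k) ^ 2 - 1) / 2 := by
  have hc0 : CharZero (FE k) := charZero_of_injective_algebraMap (algebraMap k (FE k)).injective
  let a : TrivSqZeroExt (FE k) (FE k) := TrivSqZeroExt.inl (x0 k) + TrivSqZeroExt.inr (y0 k)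
  let b : TrivSqZeroExt (FE k) (FE k) := TrivSqZeroExt.inl (y0 k) +
    TrivSqZeroExt.inr ((3 * (x0 k) ^ 2 - 1) / 2)
  have hab : b ^ 2 = a ^ 3 - a := by
    ext
    · simp only [a, b, TrivSqZeroExt.fst_pow, TrivSqZeroExt.fst_add, TrivSqZeroExt.fst_inl,
        TrivSqZeroExt.fst_inr, add_zero, TrivSqZeroExt.fst_sub]
      exact x0y0 k
    · simp only [a, b, pow_succ, pow_zero, one_mul, TrivSqZeroExt.snd_mul, TrivSqZeroExt.snd_add,
        TrivSqZeroExt.snd_inl, TrivSqZeroExt.fst_mul,
        TrivSqZeroExt.snd_inr, zero_add, TrivSqZeroExt.snd_sub, TrivSqZeroExt.fst_add,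
        TrivSqZeroExt.fst_inl, TrivSqZeroExt.fst_inr, add_zero, smul_eq_mul,
        MulOpposite.smul_eq_mul_unop, MulOpposite.unop_op]
      ring
  have h0 : (EF k).polynomial.eval₂
      ((aeval a : k[X] →ₐ[k] TrivSqZeroExt (FE k) (FE k)) : k[X] →+* _) b = 0 := by
    rw [eval₂_EF_polynomial]
    simp only [RingHom.coe_coe, aeval_X]
    rw [hab, sub_self]
  let φ : (EF k).CoordinateRing →ₐ[k] TrivSqZeroExt (FE k) (FE k) :=
    AdjoinRoot.liftAlgHom (EF k).polynomial (aeval a) b h0
  have hC : ∀ p : k[X], φ (WeierstrassCurve.Affine.CoordinateRing.mk (EF k) (C p)) = aeval a p := by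
    intro p
    exact AdjoinRoot.liftAlgHom_of _ _ _ h0 p
  have hY : φ (WeierstrassCurve.Affine.CoordinateRing.mk (EF k) X) = b :=
    AdjoinRoot.liftAlgHom_root _ _ _ h0
  have hX : φ (WeierstrassCurve.Affine.CoordinateRing.mk (EF k) (C X)) = a := by
    rw [hC, aeval_X]
  have hfst : ∀ r, (φ r).fst = algebraMap (EF k).CoordinateRing (FE k) r := by
    intro r
    obtain ⟨p, q, rfl⟩ := exists_pq k r
    have hp : ∀ p : k[X], (aeval a p).fst = aeval (x0 k) p := by
      intro p
      have := aeval_algHom_apply (TrivSqZeroExt.fstHom k (FE k) (FE k)) a p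
      rw [TrivSqZeroExt.fstHom_apply] at this
      rw [TrivSqZeroExt.fstHom_apply] at this
      rw [← this]
      simp [a]
    rw [algebraMap_pq, map_add, map_mul, hC, hC, hY, TrivSqZeroExt.fst_add, TrivSqZeroExt.fst_mul,
      hp, hp]
    simp [b]
  have hunit : ∀ s : nonZeroDivisors (EF k).CoordinateRing, IsUnit (φ s) := by
    intro s
    rw [TrivSqZeroExt.isUnit_iff_isUnit_fst, hfst]
    exact IsLocalization.map_units (FE k) s
  let Φ : FE k →ₐ[k] TrivSqZeroExt (FE k) (FE k) :=
    IsLocalization.liftAlgHom (M := nonZeroDivisors (EF k).CoordinateRing) (f := φ) hunit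
  have hΦ : ∀ r, Φ (algebraMap (EF k).CoordinateRing (FE k) r) = φ r := by
    intro r
    exact IsLocalization.lift_eq _ _
  have hΦfst : ∀ f, (Φ f).fst = f := by
    intro f
    obtain ⟨r, s, hs, rfl⟩ := IsFractionRing.div_surjective (A := (EF k).CoordinateRing) f
    have hs0 : algebraMap (EF k).CoordinateRing (FE k) s ≠ 0 := by
      simpa using nonZeroDivisors.ne_zero hs
    have h1 : (Φ (algebraMap (EF k).CoordinateRing (FE k) r / algebraMap (EF k).CoordinateRing (FE k) s)).fst *
        algebraMap (EF k).CoordinateRing (FE k) s = algebraMap (EF k).CoordinateRing (FE k) r := by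
      have h2 : algebraMap (EF k).CoordinateRing (FE k) s =
          (Φ (algebraMap (EF k).CoordinateRing (FE k) s)).fst := by rw [hΦ, hfst]
      have h3 := congrArg (fun z => (Φ z).fst) (div_mul_cancel₀
        (algebraMap (EF k).CoordinateRing (FE k) r) hs0)
      simp only [map_mul, TrivSqZeroExt.fst_mul] at h3
      rw [← h2] at h3
      rw [h3, hΦ, hfst]
    rw [eq_div_iff hs0]
    exact h1
  refine ⟨Derivation.mk' ((TrivSqZeroExt.sndHom (FE k) (FE k)).restrictScalars k ∘ₗ Φ.toLinearMap) ?_, ?_, ?_⟩
  · intro f g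
    change (Φ (f * g)).snd = f • (Φ g).snd + g • (Φ f).snd
    rw [map_mul, TrivSqZeroExt.snd_mul, hΦfst, hΦfst, op_smul_eq_smul]
  · change (Φ (x0 k)).snd = _
    rw [x0, hΦ, hX]
    simp [a]
  · change (Φ (y0 k)).snd = _
    rw [y0, hΦ, hY]
    simp [b]

/-- D1 : chain rule -/
theorem D_comp (k : Type*) [Field k] [CharZero k] (D : Derivation k (FE k) (FE k))
    (hDx : D (x0 k) = y0 k)
    (hDy : D (y0 k) = (3 * (x0 k) ^ 2 - 1) / 2) (ψ : FE k →ₐ[k] FE k) (f : FE k) :
    D (ψ f) = (D (ψ (x0 k)) / ψ (y0 k)) * ψ (D f) := by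
  have hc0 : CharZero (FE k) := charZero_of_injective_algebraMap (algebraMap k (FE k)).injective
  have hψy : ψ (y0 k) ≠ 0 := by
    rw [Ne, map_eq_zero_iff ψ ψ.toRingHom.injective]
    exact y0_ne_zero k
  have hf : f ∈ IntermediateField.adjoin k {x0 k, y0 k} := by
    rw [adjoin_x0_y0]; trivial
  induction hf using IntermediateField.adjoin_induction with
  | mem z hz =>
    rcases hz with rfl | hz
    · rw [hDx]
      field_simp
    · rw [Set.mem_singleton_iff] at hz
      subst hz
      rw [hDy]
      have h1 : D (ψ (y0 k) ^ 2) = D (ψ (x0 k) ^ 3 - ψ (x0 k)) := by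
        rw [← map_pow, x0y0, map_sub, map_pow]
      rw [map_sub, Derivation.leibniz_pow, Derivation.leibniz_pow] at h1
      simp only [smul_eq_mul, nsmul_eq_mul, Nat.cast_ofNat] at h1
      norm_num at h1
      simp only [map_div₀, map_sub, map_mul, map_pow, map_one, map_ofNat]
      field_simp
      linear_combination h1
  | algebraMap c =>
    simp
  | add u v _ _ hu hv =>
    simp only [map_add]
    rw [hu, hv]
    ring
  | inv u _ hu =>
    rw [map_inv₀, Derivation.leibniz_inv, Derivation.leibniz_inv, smul_eq_mul, smul_eq_mul, hu]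
    simp only [map_mul, map_neg, map_pow, map_inv₀]
    ring
  | mul u v _ _ hu hv =>
    rw [map_mul, Derivation.leibniz, Derivation.leibniz]
    simp only [map_add, map_mul, smul_eq_mul]
    rw [hu, hv]
    ring

open scoped IntermediateField.algebraAdjoinAdjoin in
theorem isAlgebraic_of_transcendental (k : Type*) [Field k] (f : FE k) (hf : Transcendental k f) :
    Algebra.IsAlgebraic (IntermediateField.adjoin k {f}) (FE k) := by
  have hx : AlgebraicIndependent k (fun _ : Unit => x0 k) :=
    algebraicIndependent_unique_type_iff.2 (transcendental_x0 k)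
  have hfi : AlgebraicIndependent k (fun _ : Unit => f) :=
    algebraicIndependent_unique_type_iff.2 hf
  have hfin : FiniteDimensional (IntermediateField.adjoin k {x0 k}) (FE k) :=
    FiniteDimensional.of_finrank_pos (by rw [finrank_x0]; norm_num)
  have halg : Algebra.IsAlgebraic (Algebra.adjoin k {x0 k}) (FE k) :=
    (IsFractionRing.comap_isAlgebraic_iff (A := Algebra.adjoin k {x0 k})
      (K := IntermediateField.adjoin k {x0 k}) (C := FE k)).2 inferInstance
  have hb : IsTranscendenceBasis k (fun _ : Unit => x0 k) := by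
    rw [hx.isTranscendenceBasis_iff_isAlgebraic, Set.range_const]
    exact halg
  have htr := hb.lift_cardinalMk_eq_trdeg
  have hb2 : IsTranscendenceBasis k (fun _ : Unit => f) := by
    refine hfi.isTranscendenceBasis_of_lift_trdeg_le_of_finite ?_
    exact htr.ge
  have := hb2.isAlgebraic_field
  rw [Set.range_const] at this
  exact this

/-- C7 : the constants of `D` are `k` -/
theorem mem_range_of_D_eq_zero (k : Type*) [Field k] [IsAlgClosed k] [CharZero k]
    (D : Derivation k (FE k) (FE k)) (hDx : D (x0 k) = y0 k)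
    (f : FE k) (hf : D f = 0) : f ∈ Set.range (algebraMap k (FE k)) := by
  by_cases htr : Transcendental k f
  · exfalso
    have hc0 : CharZero (FE k) := charZero_of_injective_algebraMap (algebraMap k (FE k)).injective
    have halg := isAlgebraic_of_transcendental k f htr
    set L := IntermediateField.adjoin k {f} with hL
    have hDL : ∀ l ∈ L, D l = 0 := by
      intro l hl
      induction hl using IntermediateField.adjoin_induction with
      | mem z hz =>
        rw [Set.mem_singleton_iff] at hz
        rw [hz, hf]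
      | algebraMap c => simp
      | add u v _ _ hu hv => rw [map_add, hu, hv, add_zero]
      | inv u _ hu => rw [Derivation.leibniz_inv, hu, smul_zero]
      | mul u v _ _ hu hv => rw [Derivation.leibniz, hu, hv, smul_zero, smul_zero, add_zero]
    let D' : Derivation L (FE k) (FE k) := Derivation.mk'
      { toFun := D
        map_add' := map_add D
        map_smul' := by
          intro l z
          have h0 : D (algebraMap L (FE k) l) = 0 := hDL _ l.2
          rw [RingHom.id_apply, Algebra.smul_def, Algebra.smul_def, Derivation.leibniz, h0,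
            smul_zero, add_zero, smul_eq_mul] }
      (fun a b => D.leibniz a b)
    have hint : IsIntegral L (x0 k) := (Algebra.IsAlgebraic.isAlgebraic (x0 k)).isIntegral
    have h1 := D'.map_aeval (minpoly L (x0 k)) (x0 k)
    rw [minpoly.aeval, map_zero] at h1
    have h2 : D' (x0 k) = y0 k := hDx
    rw [h2, smul_eq_mul] at h1
    rcases mul_eq_zero.1 h1.symm with h3 | h3
    · have : CharZero L := charZero_of_injective_algebraMap (algebraMap k L).injective
      exact (minpoly.irreducible hint).separable.aeval_derivative_ne_zero (minpoly.aeval L (x0 k)) h3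
    · exact y0_ne_zero k h3
  · have hal : IsAlgebraic k f := by
      rwa [Transcendental, not_not] at htr
    have h1 : (minpoly k f).degree = 1 :=
      IsAlgClosed.degree_eq_one_of_irreducible k (minpoly.irreducible hal.isIntegral)
    exact minpoly.mem_range_of_degree_eq_one k f h1

end PiPar
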