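import Pool.Agent.Lib.MP_43d240_ag.H56.Defs

set_option autoImplicit false

/-! # The function field of `y² = x³ - x`: generators, degree, universal property -/

namespace PiPar

open WeierstrassCurve WeierstrassCurve.Affine Polynomial

section basics

variable (k : Type*) [Field k]

theorem EF_polynomial : (EF k).polynomial =
    (X : k[X][X]) ^ 2 - C ((X : k[X]) ^ 3 - X) := by
  rw [WeierstrassCurve.Affine.polynomial, EF_a1, EF_a2, EF_a3, EF_a4, EF_a6]
  simp only [map_zero, zero_mul, add_zero, map_neg, map_one, neg_mul, one_mul, sub_eq_add_neg]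

/-- the class of a polynomial in `x` is the value at `x0` -/
theorem algebraMap_mk_C (p : k[X]) :
    algebraMap (EF k).CoordinateRing (FE k)
      (WeierstrassCurve.Affine.CoordinateRing.mk (EF k) (C p)) = aeval (x0 k) p := by
  have h : ∀ p : k[X], (WeierstrassCurve.Affine.CoordinateRing.mk (EF k) (C p)) =
      aeval (WeierstrassCurve.Affine.CoordinateRing.mk (EF k) (C X)) p := by
    intro p
    induction p using Polynomial.induction_on' with
    | add p q hp hq => rw [map_add, map_add, map_add, hp, hq]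
    | monomial n a =>
      rw [aeval_monomial, ← C_mul_X_pow_eq_monomial, map_mul, map_mul, map_pow, map_pow]
      rfl
  rw [h, x0, aeval_algebraMap_apply]

theorem x0y0 : (y0 k) ^ 2 = (x0 k) ^ 3 - x0 k := by
  have h : (WeierstrassCurve.Affine.CoordinateRing.mk (EF k) X) ^ 2 =
      (WeierstrassCurve.Affine.CoordinateRing.mk (EF k) (C X)) ^ 3 -
        (WeierstrassCurve.Affine.CoordinateRing.mk (EF k) (C X)) := by
    rw [← map_pow, ← map_pow, ← map_sub]
    refine AdjoinRoot.mk_eq_mk.2 ⟨1, ?_⟩
    rw [EF_polynomial, map_sub, map_pow]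
    ring_nf
  have h2 := congrArg (algebraMap (EF k).CoordinateRing (FE k)) h
  simp only [map_sub, map_pow (algebraMap (EF k).CoordinateRing (FE k))] at h2
  exact h2

/-- every element of the coordinate ring is `p(x) + q(x) y` -/
theorem exists_pq (a : (EF k).CoordinateRing) : ∃ p q : k[X],
    a = WeierstrassCurve.Affine.CoordinateRing.mk (EF k) (C p) +
      WeierstrassCurve.Affine.CoordinateRing.mk (EF k) (C q) *
        WeierstrassCurve.Affine.CoordinateRing.mk (EF k) X := by
  obtain ⟨p, q, h⟩ := WeierstrassCurve.Affine.CoordinateRing.exists_smul_basis_eq a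
  refine ⟨p, q, ?_⟩
  rw [← h, WeierstrassCurve.Affine.CoordinateRing.smul,
    WeierstrassCurve.Affine.CoordinateRing.smul, mul_one]

theorem pq_eq_zero (p q : k[X]) (h : WeierstrassCurve.Affine.CoordinateRing.mk (EF k) (C p) +
      WeierstrassCurve.Affine.CoordinateRing.mk (EF k) (C q) *
        WeierstrassCurve.Affine.CoordinateRing.mk (EF k) X = 0) : p = 0 ∧ q = 0 := by
  refine WeierstrassCurve.Affine.CoordinateRing.smul_basis_eq_zero (W' := EF k) ?_
  rw [WeierstrassCurve.Affine.CoordinateRing.smul,
    WeierstrassCurve.Affine.CoordinateRing.smul, mul_one]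
  exact h

theorem algebraMap_pq (p q : k[X]) : algebraMap (EF k).CoordinateRing (FE k)
    (WeierstrassCurve.Affine.CoordinateRing.mk (EF k) (C p) +
      WeierstrassCurve.Affine.CoordinateRing.mk (EF k) (C q) *
        WeierstrassCurve.Affine.CoordinateRing.mk (EF k) X) =
    aeval (x0 k) p + aeval (x0 k) q * y0 k := by
  rw [map_add, map_mul, algebraMap_mk_C, algebraMap_mk_C, y0]

/-- `1, y` are independent over `k[x]` -/
theorem aeval_pq_eq_zero (p q : k[X]) (h : aeval (x0 k) p + aeval (x0 k) q * y0 k = 0) :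
    p = 0 ∧ q = 0 := by
  rw [← algebraMap_pq] at h
  exact pq_eq_zero k p q
    ((map_eq_zero_iff _ (IsFractionRing.injective (EF k).CoordinateRing (FE k))).1 h)

theorem adjoin_x0_y0 : IntermediateField.adjoin k {x0 k, y0 k} = ⊤ := by
  rw [eq_top_iff]
  intro f _
  have hx : x0 k ∈ IntermediateField.adjoin k {x0 k, y0 k} :=
    IntermediateField.subset_adjoin _ _ (by simp)
  have hy : y0 k ∈ IntermediateField.adjoin k {x0 k, y0 k} :=
    IntermediateField.subset_adjoin _ _ (by simp)
  have hp : ∀ p : k[X], aeval (x0 k) p ∈ IntermediateField.adjoin k {x0 k, y0 k} := by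
    intro p
    have : aeval (x0 k) p = ((aeval (⟨x0 k, hx⟩ : IntermediateField.adjoin k {x0 k, y0 k}) p :
        IntermediateField.adjoin k {x0 k, y0 k}) : FE k) := by
      rw [← IntermediateField.coe_val, ← aeval_algHom_apply]
      rfl
    rw [this]
    exact Subtype.mem _
  have hr : ∀ a : (EF k).CoordinateRing,
      algebraMap (EF k).CoordinateRing (FE k) a ∈ IntermediateField.adjoin k {x0 k, y0 k} := by
    intro a
    obtain ⟨p, q, rfl⟩ := exists_pq k a
    rw [algebraMap_pq]
    exact add_mem (hp p) (mul_mem (hp q) hy)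
  obtain ⟨a, b, -, rfl⟩ := IsFractionRing.div_surjective (A := (EF k).CoordinateRing) f
  exact div_mem (hr a) (hr b)

theorem transcendental_x0 : Transcendental k (x0 k) := by
  rw [transcendental_iff]
  intro p hp
  exact (aeval_pq_eq_zero k p 0 (by rw [hp, map_zero, zero_mul, add_zero])).1

theorem y0_notMem : y0 k ∉ IntermediateField.adjoin k {x0 k} := by
  intro h
  obtain ⟨r, s, hrs⟩ := (IntermediateField.mem_adjoin_simple_iff k _).1 h
  by_cases hs : aeval (x0 k) s = 0
  · rw [hs, div_zero] at hrs
    have := aeval_pq_eq_zero k 0 1 (by rw [hrs, mul_zero, map_zero, add_zero])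
    exact one_ne_zero this.2
  · have h1 : aeval (x0 k) (-r) + aeval (x0 k) s * y0 k = 0 := by
      rw [hrs, map_neg]
      field_simp
      ring
    have h2 := aeval_pq_eq_zero k (-r) s h1
    rw [h2.2, map_zero] at hs
    exact hs rfl

theorem adjoin_y0_over : IntermediateField.adjoin (IntermediateField.adjoin k {x0 k}) {y0 k} = ⊤ := by
  have h := IntermediateField.adjoin_adjoin_left k ({x0 k} : Set (FE k)) {y0 k}
  rw [Set.singleton_union, adjoin_x0_y0] at h
  exact IntermediateField.restrictScalars_eq_top_iff.1 h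

theorem y0_root : aeval (y0 k) ((X : (IntermediateField.adjoin k {x0 k})[X]) ^ 2 -
    C ((⟨x0 k, IntermediateField.mem_adjoin_simple_self k _⟩ :
      IntermediateField.adjoin k {x0 k}) ^ 3 -
      (⟨x0 k, IntermediateField.mem_adjoin_simple_self k _⟩ :
      IntermediateField.adjoin k {x0 k}))) = 0 := by
  rw [map_sub, map_pow, aeval_X, aeval_C]
  have : algebraMap (IntermediateField.adjoin k {x0 k}) (FE k)
      ((⟨x0 k, IntermediateField.mem_adjoin_simple_self k _⟩ :
      IntermediateField.adjoin k {x0 k}) ^ 3 -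
      (⟨x0 k, IntermediateField.mem_adjoin_simple_self k _⟩ :
      IntermediateField.adjoin k {x0 k})) = x0 k ^ 3 - x0 k := rfl
  rw [this, x0y0, sub_self]

theorem y0_integral : IsIntegral (IntermediateField.adjoin k {x0 k}) (y0 k) := by
  refine ⟨_, ?_, y0_root k⟩
  exact monic_X_pow_sub_C _ two_ne_zero

theorem finrank_x0 : Module.finrank (IntermediateField.adjoin k {x0 k}) (FE k) = 2 := by
  rw [← IntermediateField.finrank_top', ← adjoin_y0_over,
    IntermediateField.adjoin.finrank (y0_integral k)]
  apply le_antisymm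
  · refine (Polynomial.natDegree_le_natDegree (minpoly.min _ _ (monic_X_pow_sub_C _ two_ne_zero)
      (y0_root k))).trans ?_
    rw [natDegree_X_pow_sub_C]
  · rw [minpoly.two_le_natDegree_iff (y0_integral k)]
    rintro ⟨z, hz⟩
    apply y0_notMem k
    rw [← hz]
    exact z.2

theorem isFF_FE : IsFF k (FE k) := by
  refine ⟨x0 k, transcendental_x0 k, ?_⟩
  exact FiniteDimensional.of_finrank_pos (by rw [finrank_x0]; norm_num)

theorem hN_x0 : hN k (FE k) (x0 k) = 2 := finrank_x0 k

end basics

/-- the universal property of the function field of `y² = x³ - x` -/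
theorem exists_algHom (k : Type*) [Field k] {N : Type*} [Field N] [Algebra k N] (x y : N)
    (h : y ^ 2 = x ^ 3 - x) (hx : Transcendental k x) :
    ∃ f : FE k →ₐ[k] N, f (x0 k) = x ∧ f (y0 k) = y := by
  have h0 : (EF k).polynomial.eval₂ ((aeval x : k[X] →ₐ[k] N) : k[X] →+* N) y = 0 := by
    rw [EF_polynomial, eval₂_sub, eval₂_pow, eval₂_X, eval₂_C]
    simp only [RingHom.coe_coe, map_sub, map_pow, aeval_X]
    rw [h, sub_self]
  let φ : (EF k).CoordinateRing →ₐ[k] N := AdjoinRoot.liftAlgHom (EF k).polynomial (aeval x) y h0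
  have hC : ∀ p : k[X], φ (WeierstrassCurve.Affine.CoordinateRing.mk (EF k) (C p)) = aeval x p := by
    intro p
    exact AdjoinRoot.liftAlgHom_of _ _ _ h0 p
  have hY : φ (WeierstrassCurve.Affine.CoordinateRing.mk (EF k) X) = y :=
    AdjoinRoot.liftAlgHom_root _ _ _ h0
  have hinj : Function.Injective φ := by
    rw [injective_iff_map_eq_zero]
    intro a ha
    obtain ⟨p, q, rfl⟩ := exists_pq k a
    have h1 : aeval x p + aeval x q * y = 0 := by
      rw [map_add, map_mul, hC, hC, hY] at ha
      exact ha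
    have h2 : aeval x (p ^ 2 - q ^ 2 * (X ^ 3 - X)) = 0 := by
      simp only [map_sub, map_mul, map_pow, aeval_X]
      linear_combination (aeval x p - aeval x q * y) * h1 + (aeval x q) ^ 2 * h
    have h3 : p ^ 2 - q ^ 2 * (X ^ 3 - X) = 0 := (transcendental_iff.1 hx) _ h2
    have h4 : (aeval (x0 k) p + aeval (x0 k) q * y0 k) *
        (aeval (x0 k) p + aeval (x0 k) (-q) * y0 k) = 0 := by
      have h5 := congrArg (aeval (x0 k)) h3
      simp only [map_sub, map_mul, map_pow, aeval_X, map_zero] at h5
      rw [map_neg]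
      linear_combination h5 - (aeval (x0 k) q) ^ 2 * x0y0 k
    rcases mul_eq_zero.1 h4 with h5 | h5
    · obtain ⟨rfl, rfl⟩ := aeval_pq_eq_zero k p q h5
      simp
    · obtain ⟨rfl, h6⟩ := aeval_pq_eq_zero k p (-q) h5
      rw [neg_eq_zero] at h6
      rw [h6]
      simp
  refine ⟨IsFractionRing.liftAlgHom (g := φ) hinj, ?_, ?_⟩
  · rw [x0, IsFractionRing.liftAlgHom_apply, IsFractionRing.lift_algebraMap]
    have := hC X
    rw [aeval_X] at this
    exact this
  · rw [y0, IsFractionRing.liftAlgHom_apply, IsFractionRing.lift_algebraMap]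
    exact hY

end PiPar
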